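import Pool.Agent.H77.NV.Rfin
import Pool.Agent.H87.NV.Wmx

/-!
# The ratio of the closed derivatives is almost constant on the ball

`wr_var`: the ratio of the closed derivatives of the label of the target in the directions of `c 1`
and `c 2` is almost constant on the times of the ball. The Wronskian of the two closed derivatives is
the coefficient of a linear closed relation of the slope of `c 1`.
-/

set_option autoImplicit false

namespace Pool.NVX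

open Finset Real MvPolynomial
open Pool.Agent.H49.Ent Pool.Agent.H32.Dense Pool.STK Pool.KA Pool.KSAT Pool.K2S Pool.PB Pool.S6C
open Pool.GEN Pool.CHT
open Pool.F5 (lp gp der_lp dd_gp deg_gp deg_lp eo bdS bdS_slam)
open Pool.PB.Trl (rt rt_mem t_rt)
open Pool.FLF (Fam.sub)

variable {m J : ℕ}

/-- The statement of `alg2` (87): there is no large closed quadratic relation of the slope. -/
def Alg2In (m D M : ℕ) : Prop := ∃ (C : ℕ) (C₁ : ℝ), 1 ≤ C₁ ∧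
    ∀ {J : ℕ} {F : Fam m J} {c : ℕ → Fin m} {a w w₂ e h n n₁ p s x D' D₂ G : ℕ} {g : ℕ → ℕ}
    {κ θ : ℝ} {B₀ B : F.Ω → Prop} {T : PtT F → ℕ → MvPolynomial (Option (Fin m)) ℝ}
    {TH : LnT F → ℕ → MvPolynomial (Option (Fin m)) ℝ}
    {ν : PtT F → F.Ω} {X : PtT F → ℝ} {ξ : LnT F → Polynomial ℝ}
    {q : ℕ → LnT F → Polynomial ℝ} {η : LnT F → ℝ},
    Set.InjOn c (Set.Iio 2) → C ≤ D₂ → RelvF F c 2 a w₂ g D₂ h κ B₀ T →
    ChOK F c 2 (fun _ => D') a w₂ e g B₀ T TH → Sub B B₀ → 0 < Pe F.p B →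
    0 ≤ κ → κ * 2 ^ C * Pe F.p B₀ ≤ Pe F.p B →
    w + C * (n + h + s + 1) ≤ w₂ → w₂ ≤ a → a ≤ J →
    (∀ (B' : F.Ω → Prop) (hB' : 0 < Pe F.p B'), Sub B' B → Pe F.p B ≤ 2 ^ C * Pe F.p B' →
      (Fam.sub F B' hB').Tm θ) → 0 ≤ θ → C₁ * (θ + 1) ≤ ((J : ℝ) - w) * Real.log 2 →
    C₁ * (θ + 1) ≤ s → g 1 + w * M ≤ n₁ + w₂ * M →
    (∀ s', (ξ s').natDegree ≤ D) → (∀ i < 3, ∀ s', (q i s').natDegree ≤ D) →
    (∀ ω, B ω → ptr F J (ν (ptr F J ω)) = ptr F J ω) →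
    (∀ ω, B ω → |X (ptr F J ω)| ≤ 2 ^ x) → x + g 1 + C * (n + h + 1) ≤ J →
    (∀ ω, B ω → |(bd F ω (some (c 1)) - bd F (ν (ptr F J ω)) (some (c 1))) -
      X (ptr F J ω) * (bd F ω (some (c 0)) - bd F (ν (ptr F J ω)) (some (c 0)))| ≤
        2 ^ a / 2 ^ (g 1 + p)) → C * (n + h + 1) ≤ p →
    (∀ ω, B ω → ∀ b, NBx c (T (ptr F J ω)) g a (F.t ω) 1 b →
      |b (some (c 0)) - (F.x ω (c 0) + (b none - F.t ω) * bd F ω (some (c 0)))| ≤ 2 ^ n / 2 ^ g 0) →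
    (∀ ω, B ω → ∀ b, NBx c (T (ptr F J ω)) g a (F.t ω) 2 b →
      |(b (some (c 1)) - (F.x ω (c 1) + (b none - F.t ω) * bd F ω (some (c 1)))) -
        X (ptr F J ω) * (b (some (c 0)) - (F.x ω (c 0) + (b none - F.t ω) * bd F ω (some (c 0))))| ≤
        2 ^ n / 2 ^ g 1) →
    (∀ ω, B ω → ∀ t : ℝ, |t - F.t ω| ≤ 1 / 2 ^ a →
      |X (ptr F J ω) - (ξ (slam F w ω)).eval t| ≤ 2 ^ n * (2 ^ g 0 / 2 ^ n₁)) →
    (∀ ω, B ω → ∀ t : ℝ, |t - F.t ω| ≤ 1 / 2 ^ a →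
      |(q 0 (slam F w ω)).eval t + 2 * (q 1 (slam F w ω)).eval t *
          ((X (ptr F J ω) - (ξ (slam F w ω)).eval t) / (2 ^ g 0 / 2 ^ n₁)) +
        (q 2 (slam F w ω)).eval t *
          ((X (ptr F J ω) - (ξ (slam F w ω)).eval t) / (2 ^ g 0 / 2 ^ n₁)) ^ 2| ≤
        η (slam F w ω)) →
    C * (w₂ + n + h + s + 1) ≤ G + C * w →
    (∀ ω, B ω → ∃ i < 3, 2 ^ G * η (slam F w ω) <
      wmx w (slam F w ω).2.2 (q i (slam F w ω))) → False

/-- A polynomial which is bounded on an interval: its values and its derivative at the distance of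
two lengths. -/
theorem ext_der (D : ℕ) : ∃ C : ℕ, ∀ {P : Polynomial ℝ} {t₀ K : ℝ} {w : ℕ}, P.natDegree ≤ D →
    (∀ t : ℝ, t₀ ≤ t → t ≤ t₀ + 1 / 2 ^ w → |P.eval t| ≤ K) →
    ∀ t : ℝ, |t - t₀| ≤ 2 / 2 ^ w →
      |P.eval t| ≤ 2 ^ C * K ∧ |(Polynomial.derivative P).eval t| ≤ 2 ^ (C + w) * K := by
  obtain ⟨C₀, hC₀, hlip⟩ := lip_four D
  obtain ⟨C, hC⟩ := pow_unbounded_of_one_lt (1 + 2 * C₀) (one_lt_two (α := ℝ))
  refine ⟨C, ?_⟩
  intro P t₀ K w hP hK t ht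
  have hw0 : (0 : ℝ) < 2 ^ w := by positivity
  have hK0 : 0 ≤ K := (abs_nonneg _).trans (hK t₀ le_rfl (by
    have : (0 : ℝ) ≤ 1 / 2 ^ w := by positivity
    linarith))
  obtain ⟨Q, hQ⟩ : ∃ Q : Polynomial ℝ, Q = P.comp (Polynomial.C (1 / 2 ^ w : ℝ) * Polynomial.X +
    Polynomial.C t₀) := ⟨_, rfl⟩
  have hQd : Q.natDegree ≤ D := by
    rw [hQ]
    refine Polynomial.natDegree_comp_le.trans ?_
    have h1 : (Polynomial.C (1 / 2 ^ w : ℝ) * Polynomial.X + Polynomial.C t₀).natDegree ≤ 1 :=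
      Polynomial.natDegree_linear_le
    calc P.natDegree * _ ≤ D * 1 := Nat.mul_le_mul hP h1
      _ = D := Nat.mul_one _
  have hQe : ∀ x : ℝ, Q.eval (2 ^ w * (x - t₀)) = P.eval x := by
    intro x
    rw [hQ, Polynomial.eval_comp]
    congr 1
    simp only [Polynomial.eval_mul, Polynomial.eval_C, Polynomial.eval_add, Polynomial.eval_X]
    field_simp
    ring
  have hQu : ∀ τ ∈ Set.Icc (0 : ℝ) 1, |Q.eval τ| ≤ K := by
    intro τ hτ
    have h1 := hQe (t₀ + τ / 2 ^ w)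
    have h2 : 2 ^ w * (t₀ + τ / 2 ^ w - t₀) = τ := by
      field_simp
      ring
    rw [h2] at h1
    rw [h1]
    refine hK _ ?_ ?_
    · have : 0 ≤ τ / 2 ^ w := div_nonneg hτ.1 hw0.le
      linarith
    · have : τ / 2 ^ w ≤ 1 / 2 ^ w := div_le_div_of_nonneg_right hτ.2 hw0.le
      linarith
  have h1 := hlip Q K hQd hQu
  have ht2 : |2 ^ w * (t - t₀)| ≤ 2 := by
    rw [abs_mul, abs_of_pos hw0]
    calc 2 ^ w * |t - t₀| ≤ 2 ^ w * (2 / 2 ^ w) := mul_le_mul_of_nonneg_left ht hw0.le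
      _ = 2 := by field_simp
  constructor
  · have h2 := h1 (2 ^ w * (t - t₀)) 0 (by linarith) (by norm_num)
    rw [hQe, sub_zero] at h2
    have h3 : |Q.eval 0| ≤ K := hQu 0 ⟨le_rfl, zero_le_one⟩
    have h4 : |P.eval t| ≤ |P.eval t - Q.eval 0| + |Q.eval 0| := by
      have := abs_add_le (P.eval t - Q.eval 0) (Q.eval 0)
      rwa [sub_add_cancel] at this
    have h5 : C₀ * K * |2 ^ w * (t - t₀)| ≤ C₀ * K * 2 :=
      mul_le_mul_of_nonneg_left ht2 (mul_nonneg (by linarith) hK0)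
    have h6 : (1 + 2 * C₀) * K ≤ 2 ^ C * K := mul_le_mul_of_nonneg_right hC.le hK0
    nlinarith
  · rw [← Polynomial.deriv, ← Real.norm_eq_abs]
    refine norm_deriv_le_of_lip' (by positivity) ?_
    have h2 : ∀ᶠ x in nhds t, |x - t| < 1 / 2 ^ w := by
      have := Metric.ball_mem_nhds t (ε := 1 / 2 ^ w) (by positivity)
      filter_upwards [this] with x hx
      rwa [Metric.mem_ball, Real.dist_eq] at hx
    filter_upwards [h2] with x hx
    rw [Real.norm_eq_abs, Real.norm_eq_abs, ← hQe x, ← hQe t]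
    have hxt : |2 ^ w * (x - t₀) - 2 ^ w * (t - t₀)| = 2 ^ w * |x - t| := by
      rw [show 2 ^ w * (x - t₀) - 2 ^ w * (t - t₀) = 2 ^ w * (x - t) by ring, abs_mul,
        abs_of_pos hw0]
    have hx1 : 2 ^ w * |x - t| < 1 := by
      rw [lt_div_iff₀ hw0] at hx
      linarith
    have h5 := h1 (2 ^ w * (x - t₀)) (2 ^ w * (t - t₀)) (by
      rw [← hxt] at hx1
      have h6 := abs_le.1 hx1.le
      have h7 := abs_le.1 ht2
      rw [abs_le]
      constructor <;> linarith [h6.1, h6.2, h7.1, h7.2]) (by linarith)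
    refine h5.trans ?_
    rw [hxt, pow_add]
    have h7 : C₀ * K ≤ 2 ^ C * K := mul_le_mul_of_nonneg_right (by linarith) hK0
    calc C₀ * K * (2 ^ w * |x - t|) ≤ 2 ^ C * K * (2 ^ w * |x - t|) :=
          mul_le_mul_of_nonneg_right h7 (by positivity)
      _ = 2 ^ C * 2 ^ w * K * |x - t| := by ring

/-- The Wronskian. -/
noncomputable def wro (P Q : Polynomial ℝ) : Polynomial ℝ :=
  Polynomial.derivative P * Q - P * Polynomial.derivative Q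

theorem wro_eval (P Q : Polynomial ℝ) (t : ℝ) : (wro P Q).eval t =
    (Polynomial.derivative P).eval t * Q.eval t - P.eval t * (Polynomial.derivative Q).eval t := by
  unfold wro
  simp

theorem wro_deg {D : ℕ} {P Q : Polynomial ℝ} (hP : P.natDegree ≤ D) (hQ : Q.natDegree ≤ D) :
    (wro P Q).natDegree ≤ 2 * D := by
  unfold wro
  have hP' : (Polynomial.derivative P).natDegree ≤ D :=
    (Polynomial.natDegree_derivative_le _).trans ((Nat.sub_le _ _).trans hP)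
  have hQ' : (Polynomial.derivative Q).natDegree ≤ D :=
    (Polynomial.natDegree_derivative_le _).trans ((Nat.sub_le _ _).trans hQ)
  refine (Polynomial.natDegree_sub_le _ _).trans (max_le ?_ ?_)
  · exact Polynomial.natDegree_mul_le.trans (by omega)
  · exact Polynomial.natDegree_mul_le.trans (by omega)

/-- The Wronskian of a combination. -/
theorem wro_comb (P₀ P₁ P₂ : Polynomial ℝ) (X₁ X₂ t : ℝ) :
    (wro P₀ P₂).eval t + (wro P₁ P₂).eval t * X₁ =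
      (Polynomial.derivative (P₀ + Polynomial.C X₁ * P₁ + Polynomial.C X₂ * P₂)).eval t *
        P₂.eval t -
      (P₀ + Polynomial.C X₁ * P₁ + Polynomial.C X₂ * P₂).eval t *
        (Polynomial.derivative P₂).eval t := by
  rw [wro_eval, wro_eval]
  simp only [Polynomial.derivative_add, Polynomial.derivative_C_mul, Polynomial.eval_add,
    Polynomial.eval_mul, Polynomial.eval_C]
  ring

/-- The variation of a ratio. -/
theorem ratio_var {P Q : Polynomial ℝ} {t₀ δ K k : ℝ} (hk : 0 < k)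
    (hQ : ∀ t : ℝ, |t - t₀| ≤ δ → k ≤ |Q.eval t|)
    (hW : ∀ t : ℝ, |t - t₀| ≤ δ → |(wro P Q).eval t| ≤ K) {t : ℝ} (ht : |t - t₀| ≤ δ) :
    |P.eval t / Q.eval t - P.eval t₀ / Q.eval t₀| ≤ K / k ^ 2 * δ := by
  have hδ : 0 ≤ δ := (abs_nonneg _).trans ht
  have h00 : |t₀ - t₀| ≤ δ := by rw [sub_self, abs_zero]; exact hδ
  have hK : 0 ≤ K := (abs_nonneg _).trans (hW t₀ h00)
  have hne : ∀ x : ℝ, |x - t₀| ≤ δ → Q.eval x ≠ 0 := by
    intro x hx h0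
    have := hQ x hx
    rw [h0, abs_zero] at this
    linarith
  have hIcc : ∀ x : ℝ, x ∈ Set.Icc (t₀ - δ) (t₀ + δ) ↔ |x - t₀| ≤ δ := by
    intro x
    rw [Set.mem_Icc, abs_le]
    constructor
    · rintro ⟨h1, h2⟩
      constructor <;> linarith
    · rintro ⟨h1, h2⟩
      constructor <;> linarith
  have h4 := (convex_Icc (t₀ - δ) (t₀ + δ)).norm_image_sub_le_of_norm_hasDerivWithin_le
    (f := fun x => P.eval x / Q.eval x)
    (f' := fun x => ((Polynomial.derivative P).eval x * Q.eval x -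
      P.eval x * (Polynomial.derivative Q).eval x) / (Q.eval x) ^ 2) (C := K / k ^ 2)
    (fun x hx => ((P.hasDerivAt x).div (Q.hasDerivAt x)
      (hne x ((hIcc x).1 hx))).hasDerivWithinAt)
    (fun x hx => by
      have hx' := (hIcc x).1 hx
      rw [Real.norm_eq_abs, abs_div, ← wro_eval]
      have h1 := hQ x hx'
      have h2 : k ^ 2 ≤ |Q.eval x ^ 2| := by
        rw [abs_pow]
        exact pow_le_pow_left₀ hk.le h1 2
      exact div_le_div₀ hK (hW x hx') (by positivity) h2)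
    ((hIcc t₀).2 h00) ((hIcc t).2 ht)
  rw [Real.norm_eq_abs, Real.norm_eq_abs] at h4
  exact h4.trans (mul_le_mul_of_nonneg_left ht (by positivity))

/-- [S5] **The ratio of the closed derivatives is almost constant on the ball.** -/
theorem wr_var {m D M DD : ℕ} (hDD : 3 * D ≤ DD) (halg : Alg2In m DD M) :
    ∃ (C : ℕ) (C₁ : ℝ), 1 ≤ C₁ ∧ ∀ {J : ℕ} {F : Fam m J} {c : ℕ → Fin m}
    {a w w₂ e h h' n n' p r s lam₁ lam₂ D' D₂ D₃ G : ℕ} {g gN g₄ : ℕ → ℕ} {κ θ : ℝ}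
    {B₀ A B : F.Ω → Prop} {T T₄ : PtT F → ℕ → MvPolynomial (Option (Fin m)) ℝ}
    {TH NH : LnT F → ℕ → MvPolynomial (Option (Fin m)) ℝ} {v : PtT F → Fin m → ℝ}
    {X : PtT F → Option (Fin m) → ℝ} {ν₀ : PtT F → F.Ω} {ξ : LnT F → Polynomial ℝ},
    Set.InjOn c (Set.Iio 3) → C ≤ D₂ → RelvF F c 2 a w₂ g D₂ h κ B₀ T →
    ChOK F c 2 (fun _ => D') a w₂ e g B₀ T TH →
    Rel3 F c a w e n p lam₁ lam₂ D₃ h' g gN g₄ A B T T₄ NH v X ν₀ → Sub B B₀ → 0 < Pe F.p B →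
    0 ≤ κ → κ * 2 ^ C * Pe F.p B₀ ≤ Pe F.p B →
    w + C * (n' + h + s + 1) ≤ w₂ → w + r + C ≤ a → w₂ ≤ a → a ≤ J →
    (∀ (B' : F.Ω → Prop) (hB' : 0 < Pe F.p B'), Sub B' B → Pe F.p B ≤ 2 ^ C * Pe F.p B' →
      (Fam.sub F B' hB').Tm θ) → 0 ≤ θ → C₁ * (θ + 1) ≤ ((J : ℝ) - w) * Real.log 2 →
    C₁ * (θ + 1) ≤ s → g 1 + w * M ≤ gN 1 + w₂ * M →
    (∀ s', (NH s' 3).totalDegree ≤ D) → (∀ s', (ξ s').natDegree ≤ D) →
    (∀ l < 2, n + e + g l + C * (n' + h + 1) ≤ J) → C * (n' + h + 1) ≤ p →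
    (∀ ω, B ω → ∀ b, NBx c (T (ptr F J ω)) g a (F.t ω) 1 b →
      |b (some (c 0)) - (F.x ω (c 0) + (b none - F.t ω) * bd F ω (some (c 0)))| ≤
        2 ^ n' / 2 ^ g 0) →
    (∀ ω, B ω → ∀ b, NBx c (T (ptr F J ω)) g a (F.t ω) 2 b →
      |(b (some (c 1)) - (F.x ω (c 1) + (b none - F.t ω) * bd F ω (some (c 1)))) -
        X (ptr F J ω) (some (c 1)) *
          (b (some (c 0)) - (F.x ω (c 0) + (b none - F.t ω) * bd F ω (some (c 0))))| ≤
        2 ^ n' / 2 ^ g 1) →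
    (∀ ω, B ω → ∀ t : ℝ, |t - F.t ω| ≤ 1 / 2 ^ a →
      |X (ptr F J ω) (some (c 1)) - (ξ (slam F w ω)).eval t| ≤ 2 ^ n' * (2 ^ g 0 / 2 ^ gN 1)) →
    (∀ ω, B ω → ∀ t : ℝ, F.t ω - rt F w ω / 2 ^ w ≤ t → t ≤ F.t ω + (1 - rt F w ω) / 2 ^ w →
      |(hcl (c 2) (NH (slam F w ω) 3) (slam F w ω)).eval t| ≤ 2 ^ (a + lam₂) / 2 ^ gN 3) →
    (∀ ω, B ω → 2 ^ (a + lam₂) / 2 ^ gN 3 / 2 ^ r ≤
      |(hcl (c 2) (NH (slam F w ω) 3) (slam F w ω)).eval (F.t ω)|) →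
    C * (w₂ + n' + h + s + 1) ≤ G + C * w →
    ∃ B' : F.Ω → Prop, Sub B' B ∧ Pe F.p B / 2 ≤ Pe F.p B' ∧ ∀ ω, B' ω →
      ∀ t : ℝ, |t - F.t ω| ≤ 1 / 2 ^ a →
        |(hcl (c 1) (NH (slam F w ω) 3) (slam F w ω)).eval t /
            (hcl (c 2) (NH (slam F w ω) 3) (slam F w ω)).eval t -
          (hcl (c 1) (NH (slam F w ω) 3) (slam F w ω)).eval (F.t ω) /
            (hcl (c 2) (NH (slam F w ω) 3) (slam F w ω)).eval (F.t ω)| ≤
          2 ^ (G + n + 2 * r + C) * (2 ^ gN 1 / 2 ^ lam₂) *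
            (1 + 2 ^ lam₁ / 2 ^ (g 1 + p) + 2 ^ lam₂ / 2 ^ (g 2 + p)) := by
  obtain ⟨cA, C₁, hC₁, hal⟩ := halg
  obtain ⟨c₁, hext⟩ := ext_der D
  obtain ⟨c₂, hext2⟩ := ext_der (2 * D)
  obtain ⟨c₃, hmk⟩ := mkv_win D
  obtain ⟨C, hC⟩ : ∃ C, C = cA + 2 * c₁ + c₂ + c₃ + 6 := ⟨_, rfl⟩
  have pw : ∀ {x y : ℕ}, x ≤ y → (2 : ℝ) ^ x ≤ 2 ^ y := fun h => pow_le_pow_right₀ (by norm_num) h
  refine ⟨C, C₁, hC₁, ?_⟩
  intro J F c a w w₂ e h h' n n' p r s lam₁ lam₂ D' D₂ D₃ G g gN g₄ κ θ B₀ A B T T₄ TH NH v X ν₀ ξ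
    hc hCD hR hL H hB hPB hκ0 hκ hw hwr hw2a haJ hTm hθ hθJ hθs hgM hNd hξd hrm hp hb1 hb2 hξ hup
    hlow hG
  have hwa : w ≤ a := by omega
  have hwJ : w ≤ J := hwa.trans haJ
  have hc2 : Set.InjOn c (Set.Iio 2) := hc.mono (Set.Iio_subset_Iio (by norm_num))
  have mC : ∀ z : ℕ, cA * z ≤ C * z := fun z => Nat.mul_le_mul_right _ (by omega)
  -- the units
  obtain ⟨k₀, hk₀⟩ : ∃ k₀ : ℝ, k₀ = 2 ^ (a + lam₂) / 2 ^ gN 3 := ⟨_, rfl⟩
  have hk0 : 0 < k₀ := by rw [hk₀]; positivity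
  obtain ⟨er, her⟩ : ∃ er : ℝ, er = 2 ^ (a + g 0 + n) / 2 ^ gN 3 *
    (1 + 2 ^ lam₁ / 2 ^ (g 1 + p) + 2 ^ lam₂ / 2 ^ (g 2 + p)) := ⟨_, rfl⟩
  have her0 : 0 < er := by rw [her]; positivity
  obtain ⟨Y₁, hY₁⟩ : ∃ Y₁ : ℝ, Y₁ = 2 ^ g 0 / 2 ^ gN 1 := ⟨_, rfl⟩
  have hY0 : 0 < Y₁ := by rw [hY₁]; positivity
  obtain ⟨η₀, hη₀⟩ : ∃ η₀ : ℝ, η₀ = 2 ^ (2 * c₁ + 1 + a) * er * k₀ := ⟨_, rfl⟩
  have hη0 : 0 < η₀ := by rw [hη₀]; positivity
  -- the polynomials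
  obtain ⟨P, hP⟩ : ∃ P : ℕ → LnT F → Polynomial ℝ, P = fun i s' => hcl (c i) (NH s' 3) s' :=
    ⟨_, rfl⟩
  have hPd : ∀ i s', (P i s').natDegree ≤ D := fun i s' => by
    rw [hP]
    exact hcl_deg _ (hNd s') s'
  have eP : ∀ i ω, hcl (c i) (NH (slam F w ω) 3) (slam F w ω) = P i (slam F w ω) := fun i ω => by
    rw [hP]
  simp only [eP] at hup hlow ⊢
  rw [← hk₀] at hlow
  rw [← hk₀] at hup
  obtain ⟨q, hq⟩ : ∃ q : ℕ → LnT F → Polynomial ℝ, q = fun i s' =>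
    if i = 0 then wro (P 0 s') (P 2 s') + wro (P 1 s') (P 2 s') * ξ s'
    else if i = 1 then Polynomial.C (Y₁ / 2) * wro (P 1 s') (P 2 s') else 0 := ⟨_, rfl⟩
  have q0 : ∀ s', q 0 s' = wro (P 0 s') (P 2 s') + wro (P 1 s') (P 2 s') * ξ s' := fun s' => by
    rw [hq]
    simp
  have q1 : ∀ s', q 1 s' = Polynomial.C (Y₁ / 2) * wro (P 1 s') (P 2 s') := fun s' => by
    rw [hq]
    simp
  have q2 : ∀ s', q 2 s' = 0 := fun s' => by
    rw [hq]
    simp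
  have hW : ∀ i s', (wro (P i s') (P 2 s')).natDegree ≤ 2 * D := fun i s' =>
    wro_deg (hPd _ _) (hPd _ _)
  have hqd : ∀ i < 3, ∀ s', (q i s').natDegree ≤ DD := by
    intro i hi s'
    interval_cases i
    · rw [q0]
      refine (Polynomial.natDegree_add_le _ _).trans (max_le ?_ ?_)
      · exact (hW 0 s').trans (by omega)
      · refine Polynomial.natDegree_mul_le.trans ?_
        have h1 := hW 1 s'
        have h2 := hξd s'
        omega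
    · rw [q1]
      exact (Polynomial.natDegree_C_mul_le _ _).trans ((hW 1 s').trans (by omega))
    · rw [q2]
      simp
  -- the relation
  have hrel : ∀ ω, B ω → ∀ t : ℝ, |t - F.t ω| ≤ 1 / 2 ^ a →
      |(P 0 (slam F w ω) + Polynomial.C (X (ptr F J ω) (some (c 1))) * P 1 (slam F w ω) +
        Polynomial.C (X (ptr F J ω) (some (c 2))) * P 2 (slam F w ω)).eval t| ≤ er := by
    intro ω hω t ht
    have h1 := H.rel ω hω t ht
    simp only [eP] at h1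
    rw [← her] at h1
    refine (le_of_eq ?_).trans h1
    congr 1
    simp only [Polynomial.eval_add, Polynomial.eval_mul, Polynomial.eval_C]
    ring
  have ha0 : (0 : ℝ) < 2 ^ a := by positivity
  have hw0 : (0 : ℝ) < 2 ^ w := by positivity
  have hawd : (1 : ℝ) / 2 ^ a ≤ 1 / 2 ^ w := one_div_le_one_div_of_le hw0 (pw hwa)
  -- a polynomial on the window
  have hwin : ∀ (ω : F.Ω) (Q : Polynomial ℝ) (K : ℝ),
      (∀ t : ℝ, F.t ω - rt F w ω / 2 ^ w ≤ t → t ≤ F.t ω + (1 - rt F w ω) / 2 ^ w →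
        |Q.eval t| ≤ K) → ∀ t : ℝ, F.t ω - rt F w ω / 2 ^ w ≤ t →
        t ≤ (F.t ω - rt F w ω / 2 ^ w) + 1 / 2 ^ w → |Q.eval t| ≤ K := by
    intro ω Q K h1 t h2 h3
    refine h1 t h2 (h3.trans (le_of_eq ?_))
    ring
  have hnear : ∀ (ω : F.Ω) (t : ℝ), |t - F.t ω| ≤ 1 / 2 ^ a →
      |t - (F.t ω - rt F w ω / 2 ^ w)| ≤ 2 / 2 ^ w := by
    intro ω t ht
    obtain ⟨r1, r2⟩ := rt_mem F w ω
    have e1 : t - (F.t ω - rt F w ω / 2 ^ w) = (t - F.t ω) + rt F w ω / 2 ^ w := by ring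
    rw [e1]
    refine (abs_add_le _ _).trans ?_
    have e2 : |rt F w ω / 2 ^ w| ≤ 1 / 2 ^ w := by
      rw [abs_div, abs_of_pos hw0, abs_of_nonneg r1]
      exact div_le_div_of_nonneg_right r2 hw0.le
    have e3 : (2 : ℝ) / 2 ^ w = 1 / 2 ^ w + 1 / 2 ^ w := by ring
    rw [e3]
    exact add_le_add (ht.trans hawd) e2
  have hP2 : ∀ ω, B ω → ∀ t : ℝ, |t - F.t ω| ≤ 1 / 2 ^ a →
      |(P 2 (slam F w ω)).eval t| ≤ 2 ^ c₁ * k₀ ∧
        |(Polynomial.derivative (P 2 (slam F w ω))).eval t| ≤ 2 ^ (c₁ + w) * k₀ := by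
    intro ω hω t ht
    exact hext (hPd 2 _) (hwin ω _ _ (hup ω hω)) t (hnear ω t ht)
  have hη : ∀ ω, B ω → ∀ t : ℝ, |t - F.t ω| ≤ 1 / 2 ^ a →
      |(wro (P 0 (slam F w ω)) (P 2 (slam F w ω))).eval t +
        (wro (P 1 (slam F w ω)) (P 2 (slam F w ω))).eval t * X (ptr F J ω) (some (c 1))| ≤
        η₀ := by
    intro ω hω t ht
    obtain ⟨R, hRd⟩ : ∃ R : Polynomial ℝ, R = P 0 (slam F w ω) +
      Polynomial.C (X (ptr F J ω) (some (c 1))) * P 1 (slam F w ω) +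
        Polynomial.C (X (ptr F J ω) (some (c 2))) * P 2 (slam F w ω) := ⟨_, rfl⟩
    rw [wro_comb _ _ _ _ (X (ptr F J ω) (some (c 2))), ← hRd]
    have h1 : ∀ t : ℝ, |t - F.t ω| ≤ 1 / 2 ^ a → |R.eval t| ≤ er := by
      rw [hRd]
      exact hrel ω hω
    have hRdeg : R.natDegree ≤ D := by
      rw [hRd]
      refine (Polynomial.natDegree_add_le _ _).trans (max_le ((Polynomial.natDegree_add_le _ _).trans
        (max_le (hPd _ _) ?_)) ?_)
      · exact (Polynomial.natDegree_C_mul_le _ _).trans (hPd _ _)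
      · exact (Polynomial.natDegree_C_mul_le _ _).trans (hPd _ _)
    have h2 := (hext (P := R) (t₀ := F.t ω) (K := er) (w := a) hRdeg (fun t' h3 h4 => h1 t' (by
      rw [abs_le]
      have : (0 : ℝ) ≤ 1 / 2 ^ a := by positivity
      constructor <;> linarith)) t (ht.trans (by
        exact div_le_div_of_nonneg_right (by norm_num) ha0.le))).2
    obtain ⟨h3, h4⟩ := hP2 ω hω t ht
    have h5 := h1 t ht
    refine (abs_sub _ _).trans ?_
    rw [abs_mul, abs_mul]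
    have f1 : |(Polynomial.derivative R).eval t| * |(P 2 (slam F w ω)).eval t| ≤
        2 ^ (c₁ + a) * er * (2 ^ c₁ * k₀) := mul_le_mul h2 h3 (abs_nonneg _) (by positivity)
    have f2 : |R.eval t| * |(Polynomial.derivative (P 2 (slam F w ω))).eval t| ≤
        er * (2 ^ (c₁ + w) * k₀) := mul_le_mul h5 h4 (abs_nonneg _) her0.le
    have f3 : er * (2 ^ (c₁ + w) * k₀) ≤ 2 ^ (2 * c₁ + a) * er * k₀ := by
      calc er * (2 ^ (c₁ + w) * k₀) = 2 ^ (c₁ + w) * (er * k₀) := by ring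
        _ ≤ 2 ^ (2 * c₁ + a) * (er * k₀) :=
            mul_le_mul_of_nonneg_right (pw (by omega)) (by positivity)
        _ = _ := by ring
    have f4 : 2 ^ (c₁ + a) * er * (2 ^ c₁ * k₀) = 2 ^ (2 * c₁ + a) * er * k₀ := by
      rw [show 2 * c₁ + a = (c₁ + a) + c₁ by ring, pow_add 2 (c₁ + a)]
      ring
    have f5 : η₀ = 2 ^ (2 * c₁ + a) * er * k₀ + 2 ^ (2 * c₁ + a) * er * k₀ := by
      rw [hη₀, show 2 * c₁ + 1 + a = (2 * c₁ + a) + 1 by ring, pow_succ]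
      ring
    linarith
  -- the bad event
  obtain ⟨Bad, hBad⟩ : ∃ Bad : F.Ω → Prop, Bad = fun ω => B ω ∧ ∃ i < 3, 2 ^ G * η₀ <
    wmx w (slam F w ω).2.2 (q i (slam F w ω)) := ⟨_, rfl⟩
  have hBB : Sub Bad B := fun ω hω => by
    rw [hBad] at hω
    exact hω.1
  obtain ⟨Good, hGood⟩ : ∃ Good : F.Ω → Prop, Good = fun ω => B ω ∧ ¬ Bad ω := ⟨_, rfl⟩
  have hGB : Sub Good B := fun ω hω => by
    rw [hGood] at hω
    exact hω.1
  have hsplit : Pe F.p B ≤ Pe F.p Bad + Pe F.p Good :=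
    Pool.K2S.Pe_or F.isLaw fun ω hω => by
      by_cases h : Bad ω
      · exact Or.inl h
      · refine Or.inr ?_
        rw [hGood]
        exact ⟨hω, h⟩
  have hn0 : (0 : ℝ) < 2 ^ cA := by positivity
  have hhalf : Pe F.p Bad < Pe F.p B / 2 := by
    by_contra hcon
    push Not at hcon
    have hP0 : 0 < Pe F.p Bad := by linarith
    have hCpow : (2 : ℝ) ^ cA * 2 ≤ 2 ^ C := by
      rw [← pow_succ]
      exact pw (by omega)
    refine hal (F := F) (c := c) (a := a) (w := w) (w₂ := w₂) (e := e) (h := h) (n := n')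
      (n₁ := gN 1) (p := p) (s := s) (x := n + e + nlp g 0 1) (D' := D') (D₂ := D₂) (G := G)
      (g := g) (κ := κ) (θ := θ) (B₀ := B₀) (B := Bad) (T := T) (TH := TH) (ν := ν₀)
      (X := fun y => X y (some (c 1))) (ξ := ξ) (q := q) (η := fun _ => η₀) hc2 (by omega) hR hL
      (fun ω hω => hB ω (hBB ω hω)) hP0 hκ0 ?_ ((Nat.add_le_add_left (mC _) _).trans hw) hw2a haJ
      ?_ hθ hθJ hθs hgM (fun s' => (hξd s').trans (by omega)) hqd
      (fun ω hω => H.nu ω (hBB ω hω)) (fun ω hω => H.sl1 ω (hBB ω hω)) ?_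
      (fun ω hω => H.ve1 ω (hBB ω hω)) ((mC _).trans hp) (fun ω hω => hb1 ω (hBB ω hω))
      (fun ω hω => hb2 ω (hBB ω hω)) (fun ω hω => hξ ω (hBB ω hω)) ?_ ?_ ?_
    · have h1 : κ * 2 ^ cA * Pe F.p B₀ * 2 ≤ κ * 2 ^ C * Pe F.p B₀ := by
        have h2 : 0 ≤ κ * Pe F.p B₀ := mul_nonneg hκ0 (Pe_nonneg F.isLaw _)
        nlinarith
      linarith
    · intro B' hB' h1 h2
      refine hTm B' hB' (fun ω hω => hBB ω (h1 ω hω)) ?_
      have h3 : Pe F.p B ≤ 2 * Pe F.p Bad := by linarith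
      calc Pe F.p B ≤ 2 * Pe F.p Bad := h3
        _ ≤ 2 * (2 ^ cA * Pe F.p B') := by linarith
        _ = 2 ^ cA * 2 * Pe F.p B' := by ring
        _ ≤ 2 ^ C * Pe F.p B' := mul_le_mul_of_nonneg_right hCpow hB'.le
    · have h1 := nlp_01 g
      have h2 := hrm 0 (by norm_num)
      have h3 := hrm 1 (by norm_num)
      have h4 := mC (n' + h + 1)
      have h5 : max (g 0) (g 1) = g 0 ∨ max (g 0) (g 1) = g 1 := by
        rcases le_total (g 0) (g 1) with h6 | h6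
        · exact Or.inr (max_eq_right h6)
        · exact Or.inl (max_eq_left h6)
      rcases h5 with h5 | h5 <;> omega
    · intro ω hω t ht
      have h1 := hη ω (hBB ω hω) t ht
      have e0 : (2 : ℝ) ^ g 0 / 2 ^ gN 1 = Y₁ := hY₁.symm
      rw [q0, q1, q2, e0]
      simp only [Polynomial.eval_add, Polynomial.eval_mul, Polynomial.eval_C,
        Polynomial.eval_zero, zero_mul, add_zero]
      refine (le_of_eq ?_).trans h1
      congr 1
      field_simp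
      ring
    · have h1 : G + C * w = G + cA * w + (C - cA) * w := by
        have : C * w = cA * w + (C - cA) * w := by
          rw [← Nat.add_mul]
          congr 1
          omega
        omega
      have h2 : C * (w₂ + n' + h + s + 1) = cA * (w₂ + n' + h + s + 1) +
          (C - cA) * (w₂ + n' + h + s + 1) := by
        rw [← Nat.add_mul]
        congr 1
        omega
      have h3 : (C - cA) * w ≤ (C - cA) * (w₂ + n' + h + s + 1) :=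
        Nat.mul_le_mul_left _ (by omega)
      omega
    · intro ω hω
      rw [hBad] at hω
      exact hω.2
  refine ⟨Good, hGB, by linarith, ?_⟩
  intro ω hω t ht
  have hωB := hGB ω hω
  have hng : ∀ t' : ℝ, F.t ω - rt F w ω / 2 ^ w ≤ t' → t' ≤ F.t ω + (1 - rt F w ω) / 2 ^ w →
      |(wro (P 1 (slam F w ω)) (P 2 (slam F w ω))).eval t'| ≤ 2 ^ (G + 1) * η₀ / Y₁ := by
    intro t' h1 h2
    have h3 : ¬ Bad ω := by
      rw [hGood] at hω
      exact hω.2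
    rw [hBad] at h3
    push Not at h3
    have h4 := h3 hωB 1 (by norm_num)
    have h5 := (le_wmx (P := q 1 (slam F w ω)) ((win_iff hwJ ω t').1 ⟨h1, h2⟩)).trans h4
    rw [q1, Polynomial.eval_mul, Polynomial.eval_C, abs_mul, abs_of_pos (by positivity)] at h5
    rw [le_div_iff₀ hY0, pow_succ]
    linarith
  have hW1 : ∀ t' : ℝ, |t' - F.t ω| ≤ 1 / 2 ^ a →
      |(wro (P 1 (slam F w ω)) (P 2 (slam F w ω))).eval t'| ≤
        2 ^ c₂ * (2 ^ (G + 1) * η₀ / Y₁) := fun t' ht' =>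
    (hext2 (hW 1 _) (hwin ω _ _ hng) t' (hnear ω t' ht')).1
  have hkk : ∀ t' : ℝ, |t' - F.t ω| ≤ 1 / 2 ^ a →
      k₀ / 2 ^ (r + 1) ≤ |(P 2 (slam F w ω)).eval t'| := by
    intro t' ht'
    have h1 := hmk (m := m) (F := F) (w := w) (w' := a) (K := k₀) (P := P 2 (slam F w ω)) (ω := ω)
      hwa haJ (hPd 2 _) (hup ω hωB) t' (ht'.trans (by
        exact div_le_div_of_nonneg_right (by norm_num) ha0.le))
    have h2 := hlow ω hωB
    have h3 : (2 : ℝ) ^ c₃ * 2 ^ w / 2 ^ a ≤ 1 / 2 ^ (r + 1) := by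
      rw [div_le_div_iff₀ ha0 (by positivity), one_mul, ← pow_add, ← pow_add]
      exact pw (by omega)
    have h4 : 2 ^ c₃ * 2 ^ w / 2 ^ a * k₀ ≤ k₀ / 2 ^ (r + 1) := by
      calc _ ≤ 1 / 2 ^ (r + 1) * k₀ := mul_le_mul_of_nonneg_right h3 hk0.le
        _ = _ := by ring
    have h5 : k₀ / 2 ^ r = k₀ / 2 ^ (r + 1) + k₀ / 2 ^ (r + 1) := by
      rw [pow_succ]
      field_simp
      ring
    have h6 : |(P 2 (slam F w ω)).eval (F.t ω)| ≤ |(P 2 (slam F w ω)).eval t'| +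
        |(P 2 (slam F w ω)).eval t' - (P 2 (slam F w ω)).eval (F.t ω)| := by
      have := abs_sub_abs_le_abs_sub ((P 2 (slam F w ω)).eval (F.t ω))
        ((P 2 (slam F w ω)).eval t')
      rw [abs_sub_comm] at this
      linarith
    linarith
  have hkp : 0 < k₀ / 2 ^ (r + 1) := by positivity
  have hfin := ratio_var (P := P 1 (slam F w ω)) (Q := P 2 (slam F w ω)) (t₀ := F.t ω)
    (δ := 1 / 2 ^ a) hkp hkk hW1 ht
  refine hfin.trans ?_
  have e1 : 2 ^ c₂ * (2 ^ (G + 1) * η₀ / Y₁) / (k₀ / 2 ^ (r + 1)) ^ 2 * (1 / 2 ^ a) =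
      2 ^ (c₂ + (G + 1) + 2 * (r + 1) + (2 * c₁ + 1)) * (er / (Y₁ * k₀)) := by
    have e3 : (2 : ℝ) ^ (2 * (r + 1)) = 2 ^ (r + 1) * 2 ^ (r + 1) := by
      rw [← pow_add]
      congr 1
      ring
    have e4 : (2 : ℝ) ^ (c₂ + (G + 1) + 2 * (r + 1) + (2 * c₁ + 1)) =
        2 ^ c₂ * 2 ^ (G + 1) * (2 ^ (r + 1) * 2 ^ (r + 1)) * 2 ^ (2 * c₁ + 1) := by
      rw [← e3, ← pow_add, ← pow_add, ← pow_add]
    rw [hη₀, e4, pow_add 2 (2 * c₁ + 1) a]
    field_simp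
  have e2 : er / (Y₁ * k₀) = 2 ^ n * (2 ^ gN 1 / 2 ^ lam₂) *
      (1 + 2 ^ lam₁ / 2 ^ (g 1 + p) + 2 ^ lam₂ / 2 ^ (g 2 + p)) := by
    obtain ⟨br, hbr⟩ : ∃ br : ℝ, br = 1 + 2 ^ lam₁ / 2 ^ (g 1 + p) + 2 ^ lam₂ / 2 ^ (g 2 + p) :=
      ⟨_, rfl⟩
    rw [her, hY₁, hk₀, ← hbr]
    simp only [pow_add]
    field_simp
  rw [e1, e2]
  obtain ⟨br, hbr⟩ : ∃ br : ℝ, br = 1 + 2 ^ lam₁ / 2 ^ (g 1 + p) + 2 ^ lam₂ / 2 ^ (g 2 + p) :=
    ⟨_, rfl⟩
  have hbr0 : 0 < br := by rw [hbr]; positivity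
  rw [← hbr]
  calc 2 ^ (c₂ + (G + 1) + 2 * (r + 1) + (2 * c₁ + 1)) * (2 ^ n * (2 ^ gN 1 / 2 ^ lam₂) * br) =
        2 ^ (c₂ + (G + 1) + 2 * (r + 1) + (2 * c₁ + 1) + n) * ((2 ^ gN 1 / 2 ^ lam₂) * br) := by
          rw [pow_add 2 _ n]
          ring
    _ ≤ 2 ^ (G + n + 2 * r + C) * ((2 ^ gN 1 / 2 ^ lam₂) * br) :=
        mul_le_mul_of_nonneg_right (pw (by omega)) (by positivity)
    _ = _ := by ring

end Pool.NVX
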